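import Mathlib

set_option autoImplicit false

namespace Pool.Agent.Results.MP_44d1cc_al.IntervalIffRay

open Filter Topology

/-- The product of the commutators of the pairs in a list. -/
def commProd (l : List (FreeGroup (Fin 2) × FreeGroup (Fin 2))) : FreeGroup (Fin 2) :=
  (l.map (fun p : FreeGroup (Fin 2) × FreeGroup (Fin 2) => p.1 * p.2 * p.1⁻¹ * p.2⁻¹)).prod

/-- Commutator length: the smallest number of commutators whose product is `g`. -/
noncomputable def cl (g : FreeGroup (Fin 2)) : ℕ :=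
  sInf {k : ℕ | ∃ l : List (FreeGroup (Fin 2) × FreeGroup (Fin 2)),
    l.length = k ∧ commProd l = g}

/-- The set of values of stable commutator length on the commutator subgroup of `F_2`. -/
def sclSet : Set ℝ :=
  {s : ℝ | ∃ g : FreeGroup (Fin 2), (∃ l, commProd l = g) ∧
    Tendsto (fun n : ℕ => (cl (g ^ (n + 1)) : ℝ) / ((n : ℝ) + 1)) atTop (𝓝 s)}

lemma commProd_append (l₁ l₂ : List (FreeGroup (Fin 2) × FreeGroup (Fin 2))) :
    commProd (l₁ ++ l₂) = commProd l₁ * commProd l₂ := by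
  simp [commProd]

lemma exists_pow {g : FreeGroup (Fin 2)} (h : ∃ l, commProd l = g) (n : ℕ) :
    ∃ l, commProd l = g ^ n := by
  obtain ⟨l, hl⟩ := h
  induction n with
  | zero => exact ⟨[], by simp [commProd]⟩
  | succ n ih =>
    obtain ⟨l', hl'⟩ := ih
    exact ⟨l' ++ l, by rw [commProd_append, hl', hl, pow_succ]⟩

lemma nonneg_of_mem {s : ℝ} (hs : s ∈ sclSet) : 0 ≤ s := by
  obtain ⟨g, -, hg⟩ := hs
  refine ge_of_tendsto' hg (fun n => ?_)
  positivity

lemma mul_mem {s : ℝ} (hs : s ∈ sclSet) (n : ℕ) : ((n : ℝ) + 1) * s ∈ sclSet := by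
  obtain ⟨g, hg, hs⟩ := hs
  refine ⟨g ^ (n + 1), exists_pow hg _, ?_⟩
  have h1 : Tendsto (fun k : ℕ => (n + 1) * (k + 1) - 1) atTop atTop := by
    refine tendsto_atTop_mono (fun k => ?_) tendsto_id
    have : k + 1 ≤ (n + 1) * (k + 1) := Nat.le_mul_of_pos_left _ (Nat.succ_pos n)
    simp only [id]
    omega
  have h2 := (hs.comp h1).const_mul ((n : ℝ) + 1)
  refine h2.congr (fun k => ?_)
  have h3 : (n + 1) * (k + 1) - 1 + 1 = (n + 1) * (k + 1) :=
    Nat.sub_add_cancel (Nat.succ_le_of_lt (Nat.mul_pos (Nat.succ_pos n) (Nat.succ_pos k)))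
  have h4 : (((n + 1) * (k + 1) - 1 : ℕ) : ℝ) + 1 = ((n : ℝ) + 1) * ((k : ℝ) + 1) := by
    have := congrArg (fun t : ℕ => (t : ℝ)) h3
    push_cast at this ⊢
    linarith
  simp only [Function.comp]
  rw [h3, h4, pow_mul]
  have h5 : ((n : ℝ) + 1) ≠ 0 := by positivity
  have h6 : ((k : ℝ) + 1) ≠ 0 := by positivity
  field_simp

/-- The density statement on a closed interval gives the density statement on a ray, with an
explicit starting point. -/
lemma ray_of_interval {a b : ℝ} (ha : 0 ≤ a) (hab : a < b)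
    (h : ∀ x y : ℝ, a ≤ x → x < y → y ≤ b → ∃ s ∈ sclSet, x < s ∧ s < y) :
    ∀ x y : ℝ, (⌈a / (b - a)⌉₊ : ℝ) * a ≤ x → x < y → ∃ s ∈ sclSet, x < s ∧ s < y := by
  intro x y hx hxy
  have hba : 0 < b - a := sub_pos.2 hab
  have hb : 0 < b := lt_of_le_of_lt ha hab
  have hx0 : 0 ≤ x := le_trans (by positivity) hx
  -- choose `m ≥ 1` with `m a ≤ x < m b`
  obtain ⟨m, hm, hma, hmb⟩ : ∃ m : ℕ, 1 ≤ m ∧ (m : ℝ) * a ≤ x ∧ x < (m : ℝ) * b := by
    refine ⟨⌊x / b⌋₊ + 1, Nat.le_add_left _ _, ?_, ?_⟩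
    · by_cases hN : ⌊x / b⌋₊ + 1 ≤ ⌈a / (b - a)⌉₊
      · refine le_trans ?_ hx
        exact mul_le_mul_of_nonneg_right (by exact_mod_cast hN) ha
      · have h1 : ⌈a / (b - a)⌉₊ ≤ ⌊x / b⌋₊ := by omega
        have h2 : a / (b - a) ≤ (⌊x / b⌋₊ : ℝ) :=
          le_trans (Nat.le_ceil _) (by exact_mod_cast h1)
        have h3 : a ≤ (⌊x / b⌋₊ : ℝ) * (b - a) := (div_le_iff₀ hba).1 h2
        have h4 : (⌊x / b⌋₊ : ℝ) * b ≤ x := by
          have := Nat.floor_le (div_nonneg hx0 hb.le)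
          exact (le_div_iff₀ hb).1 this
        push_cast
        nlinarith
    · have := Nat.lt_floor_add_one (x / b)
      push_cast
      exact (div_lt_iff₀ hb).1 this
  have hm0 : (0 : ℝ) < m := by exact_mod_cast hm
  obtain ⟨s, hs, hs1, hs2⟩ := h (x / m) (min (y / m) b)
    ((le_div_iff₀ hm0).2 (by linarith [mul_comm (m : ℝ) a]))
    (lt_min (div_lt_div_of_pos_right hxy hm0) ((div_lt_iff₀ hm0).2 (by linarith [mul_comm (m : ℝ) b])))
    (min_le_right _ _)
  obtain ⟨k, rfl⟩ : ∃ k, m = k + 1 := ⟨m - 1, by omega⟩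
  refine ⟨((k : ℝ) + 1) * s, mul_mem hs k, ?_, ?_⟩
  · have := (div_lt_iff₀ hm0).1 hs1
    push_cast at this
    linarith [mul_comm s ((k : ℝ) + 1)]
  · have := (lt_div_iff₀ hm0).1 (lt_of_lt_of_le hs2 (min_le_left _ _))
    push_cast at this
    linarith [mul_comm s ((k : ℝ) + 1)]

/-- The set of values of `scl` on `[F_2, F_2]` is dense in some interval iff it is dense in a whole
ray. -/
theorem result :
    (∃ a b : ℝ, a < b ∧ ∀ x y : ℝ, a ≤ x → x < y → y ≤ b → ∃ s ∈ sclSet, x < s ∧ s < y) ↔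
    (∃ c : ℝ, ∀ x y : ℝ, c ≤ x → x < y → ∃ s ∈ sclSet, x < s ∧ s < y) := by
  constructor
  · rintro ⟨a, b, hab, h⟩
    by_cases hb : b ≤ 0
    · obtain ⟨s, hs, -, hs2⟩ := h a b le_rfl hab le_rfl
      exact absurd (nonneg_of_mem hs) (by linarith)
    · have h' := ray_of_interval (a := max a 0) (b := b) (le_max_right _ _)
        (max_lt hab (not_le.1 hb))
        (fun x y hx hxy hy => h x y (le_trans (le_max_left _ _) hx) hxy hy)
      exact ⟨_, h'⟩
  · rintro ⟨c, h⟩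
    exact ⟨c, c + 1, by linarith, fun x y hx hxy _ => h x y hx hxy⟩

end Pool.Agent.Results.MP_44d1cc_al.IntervalIffRay
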